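import Pool.Agent.H97.NF.Targets

/-!
# FE1: one-site expansion
-/

set_option autoImplicit false

open MeasureTheory ProbabilityTheory

namespace Pool.Agent.H85.NF

open Pool.Agent.H99.NS Pool.Agent.H97.NF

theorem eA_update (E : PEnv) (x : Site) (e : ℕ × ℕ) :
    eA (Function.update E x e) = Function.update (eA E) x e.1 := by
  funext y
  unfold eA
  by_cases h : y = x
  · subst h; simp
  · rw [Function.update_of_ne h, Function.update_of_ne h]

theorem eB_update (E : PEnv) (x : Site) (e : ℕ × ℕ) :
    eB (Function.update E x e) = Function.update (eB E) x e.2 := by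
  funext y
  unfold eB
  by_cases h : y = x
  · subst h; simp
  · rw [Function.update_of_ne h, Function.update_of_ne h]

theorem measurable_eA : Measurable eA := by
  unfold eA
  exact measurable_pi_lambda _ fun x => (measurable_pi_apply x).fst

theorem measurable_eB : Measurable eB := by
  unfold eB
  exact measurable_pi_lambda _ fun x => (measurable_pi_apply x).snd

theorem cl_zero : cl 0 = 0 := by unfold cl; simp

theorem pairLaw_zero (q : ℝ) : pairLaw q 0 = (geo q).map (fun k => (k, k)) := by
  unfold pairLaw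
  rw [cl_zero]
  simp

theorem diag_mp (q : ℝ) : MeasurePreserving (fun k : ℕ => (k, k)) (geo q) (pairLaw q 0) :=
  ⟨measurable_from_nat, (pairLaw_zero q).symm⟩

/-- The bound of a nice function in one variable. -/
theorem one_bd {S : Finset Site} {g : Env → ℝ} (hg : Nice S g) (x : Site) (A : Env) :
    ∃ C : ℝ, 0 ≤ C ∧ ∀ k : ℕ, |g (Function.update A x k)| ≤ C * (1 + k) := by
  obtain ⟨C, hC, hb⟩ := hg.bd
  refine ⟨C * (1 + ∑ y ∈ S, (A y : ℝ)), by positivity, fun k => ?_⟩
  refine (hb _).trans ?_
  rw [mul_assoc]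
  refine mul_le_mul_of_nonneg_left ?_ hC
  have h0 : (0:ℝ) ≤ ∑ y ∈ S, (A y : ℝ) := Finset.sum_nonneg fun _ _ => Nat.cast_nonneg _
  have h2 : (0:ℝ) ≤ k := Nat.cast_nonneg _
  have h1 : ∑ y ∈ S, ((Function.update A x k) y : ℝ) ≤ k + ∑ y ∈ S, (A y : ℝ) := by
    by_cases hx : x ∈ S
    · rw [← Finset.add_sum_erase S _ hx, Function.update_self]
      refine add_le_add le_rfl ?_
      have h3 : ∑ y ∈ S.erase x, ((Function.update A x k) y : ℝ) =
          ∑ y ∈ S.erase x, (A y : ℝ) := by
        refine Finset.sum_congr rfl fun y hy => ?_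
        rw [Function.update_of_ne (Finset.ne_of_mem_erase hy)]
      rw [h3]
      exact Finset.sum_le_sum_of_subset_of_nonneg (Finset.erase_subset _ _)
        fun _ _ _ => Nat.cast_nonneg _
    · have : ∑ y ∈ S, ((Function.update A x k) y : ℝ) = ∑ y ∈ S, (A y : ℝ) := by
        refine Finset.sum_congr rfl fun y hy => ?_
        rw [Function.update_of_ne (by rintro rfl; exact hx hy)]
      rw [this]
      linarith
  nlinarith

theorem int_one (hG : T_GMO) {q : ℝ} (h0 : 0 ≤ q) (h1 : q < 1) (f : ℕ → ℝ) {C : ℝ}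
    (hf : ∀ k : ℕ, |f k| ≤ C * (1 + k)) : Integrable f (geo q) := by
  have hi : Integrable (fun k : ℕ => (k : ℝ)) (geo q) := by
    have := hG q h0 h1 1
    simpa only [pow_one] using this
  refine Integrable.mono' (g := fun k : ℕ => C * (1 + (k : ℝ)))
    (((integrable_const (1:ℝ)).add hi).const_mul C)
    (measurable_of_countable f).aestronglyMeasurable (Filter.Eventually.of_forall fun k => ?_)
  rw [Real.norm_eq_abs]
  exact hf k

theorem int_two (hG : T_GMO) {q : ℝ} (h0 : 0 ≤ q) (h1 : q < 1) (f g : ℕ → ℝ) {C D : ℝ}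
    (hC : 0 ≤ C) (hf : ∀ k : ℕ, |f k| ≤ C * (1 + k)) (hg : ∀ k : ℕ, |g k| ≤ D * (1 + k)) :
    Integrable (fun k => f k * g k) (geo q) := by
  have hi : Integrable (fun k : ℕ => (k : ℝ)) (geo q) := by
    have := hG q h0 h1 1
    simpa only [pow_one] using this
  have hi2 := hG q h0 h1 2
  refine Integrable.mono' (g := fun k : ℕ => (C * D) * ((1 + 2 * (k : ℝ)) + (k:ℝ) ^ 2))
    ((((integrable_const (1:ℝ)).add (hi.const_mul 2)).add hi2).const_mul (C * D))
    (measurable_of_countable _).aestronglyMeasurable (Filter.Eventually.of_forall fun k => ?_)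
  rw [Real.norm_eq_abs, abs_mul]
  have h2 : (0:ℝ) ≤ k := Nat.cast_nonneg _
  calc |f k| * |g k| ≤ (C * (1 + k)) * (D * (1 + k)) :=
        mul_le_mul (hf k) (hg k) (abs_nonneg _) (by positivity)
    _ = (C * D) * ((1 + 2 * (k : ℝ)) + (k:ℝ) ^ 2) := by ring

theorem inner_eq (hG : T_GMO) (hP : T_PLI) {q : ℝ} (h0 : 0 ≤ q) (h1 : q < 1)
    {S : Finset Site} {g h : Env → ℝ} (hg : Nice S g) (hh : Nice S h) (x : Site) {s : ℝ}
    (hs0 : 0 ≤ s) (hs1 : s ≤ 1) (A B : Env) :
    ∫ e : ℕ × ℕ, g (Function.update A x e.1) * h (Function.update B x e.2) ∂(pairLaw q s) =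
      (1 - s) * ∫ k, g (Function.update A x k) * h (Function.update B x k) ∂(geo q) +
        s * (Ex q x g A * Ex q x h B) := by
  obtain ⟨C, hC, hb⟩ := one_bd hg x A
  obtain ⟨D, hD, hb'⟩ := one_bd hh x B
  have h2 := hP q s hs0 hs1
    (fun e : ℕ × ℕ => g (Function.update A x e.1) * h (Function.update B x e.2))
    (int_two hG h0 h1 _ _ hC hb hb')
    (Integrable.mul_prod (int_one hG h0 h1 _ hb) (int_one hG h0 h1 _ hb'))
  rw [h2.2]
  congr 2
  exact integral_prod_mul (fun k : ℕ => g (Function.update A x k))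
    (fun k : ℕ => h (Function.update B x k))

theorem pf_FE1 (hG : T_GMO) (hN : T_NIC) (hU : T_UPD) (hP : T_PLI) (hI : T_INT) : T_FE1 := by
  intro q h0 h1 S g h hg hh ρ x s hs0 hs1
  have hmg : Measurable g := hN.1 S g hg
  have hmh : Measurable h := hN.1 S h hh
  have hm : Measurable (fun E : PEnv => g (eA E) * h (eB E)) :=
    (hmg.comp measurable_eA).mul (hmh.comp measurable_eB)
  -- the left side as an integral over the product
  have hint1 : Integrable (fun p : PEnv × (ℕ × ℕ) =>
      g (Function.update (eA p.1) x p.2.1) * h (Function.update (eB p.1) x p.2.2))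
      ((PN q ρ).prod (pairLaw q s)) := by
    have h2 := ((hI q h0 h1 S g h hg hh).1 (Function.update ρ x s)).1
    have h3 := (hU q ρ x s).integrable_comp hm.aestronglyMeasurable |>.mpr h2
    refine h3.congr (Filter.Eventually.of_forall fun p => ?_)
    simp only [Function.comp, eA_update, eB_update]
  have e1 : FF q g h (Function.update ρ x s) = ∫ p : PEnv × (ℕ × ℕ),
      g (Function.update (eA p.1) x p.2.1) * h (Function.update (eB p.1) x p.2.2)
        ∂((PN q ρ).prod (pairLaw q s)) := by
    unfold FF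
    rw [← (hU q ρ x s).map_eq, integral_map (hU q ρ x s).measurable.aemeasurable
      hm.aestronglyMeasurable]
    simp only [eA_update, eB_update]
  rw [e1, integral_prod _ hint1]
  simp only
  have e2 : ∀ E : PEnv, ∫ e : ℕ × ℕ, g (Function.update (eA E) x e.1) *
      h (Function.update (eB E) x e.2) ∂(pairLaw q s) =
      (1 - s) * ∫ k, g (Function.update (eA E) x k) * h (Function.update (eB E) x k) ∂(geo q) +
        s * (Ex q x g (eA E) * Ex q x h (eB E)) :=
    fun E => inner_eq hG hP h0 h1 hg hh x hs0 hs1 (eA E) (eB E)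
  simp only [e2]
  -- integrability of the first term on `PN ρ × geo q`
  have hmp : MeasurePreserving (fun p : PEnv × ℕ => Function.update p.1 x (p.2, p.2))
      ((PN q ρ).prod (geo q)) (PN q (Function.update ρ x 0)) :=
    (hU q ρ x 0).comp ((MeasurePreserving.id (PN q ρ)).prod (diag_mp q))
  have hint2 : Integrable (fun p : PEnv × ℕ =>
      g (Function.update (eA p.1) x p.2) * h (Function.update (eB p.1) x p.2))
      ((PN q ρ).prod (geo q)) := by
    have h2 := ((hI q h0 h1 S g h hg hh).1 (Function.update ρ x 0)).1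
    have h3 := hmp.integrable_comp hm.aestronglyMeasurable |>.mpr h2
    refine h3.congr (Filter.Eventually.of_forall fun p => ?_)
    simp only [Function.comp, eA_update, eB_update]
  have hint3 : Integrable (fun E : PEnv => ∫ k, g (Function.update (eA E) x k) *
      h (Function.update (eB E) x k) ∂(geo q)) (PN q ρ) := hint2.integral_prod_left
  have hint4 : Integrable (fun E : PEnv => Ex q x g (eA E) * Ex q x h (eB E)) (PN q ρ) :=
    ((hI q h0 h1 _ _ _ (hN.2.2.2.2.1 q h0 h1 S g x hg) (hN.2.2.2.2.1 q h0 h1 S h x hh)).1 ρ).1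
  rw [integral_add (hint3.const_mul _) (hint4.const_mul _), integral_const_mul,
    integral_const_mul]
  congr 2
  unfold FF
  exact integral_integral_swap hint2

end Pool.Agent.H85.NF
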