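import Pool.Agent.H97.NF.Targets
set_option autoImplicit false
open MeasureTheory ProbabilityTheory
namespace Pool.Agent.H85.NF
open Pool.Agent.H99.NS Pool.Agent.H97.NF
theorem aux0 (q : ℝ) (h0 : 0 ≤ q) (h1 : q < 1) (m : ℕ) : Summable fun k : ℕ => (1 - q) * ((k : ℝ) ^ m * q ^ k) := by
  have hq : ‖q‖ < 1 := by rw [Real.norm_eq_abs, abs_of_nonneg h0]; exact h1
  have h3 : Summable fun k : ℕ => ((k : ℝ) ^ m * q ^ k) := summable_pow_mul_geometric_of_norm_lt_one m hq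
  exact Summable.mul_left (1 - q) h3
theorem aux1 (q : ℝ) (h0 : 0 ≤ q) (h1 : q < 1) (m : ℕ) : (fun k : ℕ => (ENNReal.ofReal ((1 - q) * q ^ k)).toReal * ‖(k : ℝ) ^ m‖) =
      fun k : ℕ => (1 - q) * ((k : ℝ) ^ m * q ^ k) := by
    funext k
    have h3 : (0:ℝ) ≤ (k : ℝ) ^ m := pow_nonneg (Nat.cast_nonneg _) _
    have h5 : 0 ≤ (1 - q) * q ^ k := mul_nonneg (by linarith) (pow_nonneg h0 k)
    rw [ENNReal.toReal_ofReal h5, Real.norm_eq_abs, abs_of_nonneg h3]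
    ring
theorem aux2 (q : ℝ) (h0 : 0 ≤ q) (h1 : q < 1) (m : ℕ) : Integrable (fun k : ℕ => (k : ℝ) ^ m)
   (Measure.sum (fun k : ℕ => ENNReal.ofReal ((1 - q) * q ^ k) • Measure.dirac k)) := by
  have h2 := aux0 q h0 h1 m
  rw [← aux1 q h0 h1 m] at h2
  exact integrable_sum_dirac (fun _ => ENNReal.ofReal_ne_top) h2
theorem pf_GMO : T_GMO := by
  intro q h0 h1 m
  have := aux2 q h0 h1 m
  unfold geo
  rw [if_pos ⟨h0, h1⟩]
  exact this
end Pool.Agent.H85.NF
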