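import Pool.Agent.H97.NF.Targets
import Pool.Agent.H22.LPP.Basics

/-!
# NIC: niceness
-/

set_option autoImplicit false

open MeasureTheory ProbabilityTheory

namespace Pool.Agent.H85.NF

open Pool.Agent.H99.NS Pool.Agent.H97.NF

theorem nic1 : ∀ S h, Nice S h → Measurable h := by
  classical
  intro S h hh
  let h' : (S → ℕ) → ℝ := fun e => h (fun x => if hx : x ∈ S then e ⟨x, hx⟩ else 0)
  have h1 : h = h' ∘ (fun (ω : Env) (x : S) => ω x.1) := by
    funext ω
    simp only [Function.comp, h']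
    apply hh.dep
    intro x hx
    rw [dif_pos hx]
  have h2 : Measurable h' := measurable_of_countable h'
  rw [h1]
  exact h2.comp (measurable_pi_lambda _ fun x => measurable_pi_apply _)

theorem nic2 : ∀ S S' h, S ⊆ S' → Nice S h → Nice S' h := by
  intro S S' h hS hh
  refine ⟨fun ω ω' hω => hh.dep ω ω' fun x hx => hω x (hS hx), ?_⟩
  obtain ⟨C, hC, hb⟩ := hh.bd
  refine ⟨C, hC, fun ω => (hb ω).trans ?_⟩
  refine mul_le_mul_of_nonneg_left ?_ hC
  have : ∑ x ∈ S, (ω x : ℝ) ≤ ∑ x ∈ S', (ω x : ℝ) :=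
    Finset.sum_le_sum_of_subset_of_nonneg hS fun _ _ _ => Nat.cast_nonneg _
  linarith

theorem nic3 : ∀ S g h (c : ℝ), Nice S g → Nice S h → Nice S (fun ω => g ω + c * h ω) := by
  intro S g h c hg hh
  refine ⟨fun ω ω' hω => by rw [hg.dep ω ω' hω, hh.dep ω ω' hω], ?_⟩
  obtain ⟨C, hC, hb⟩ := hg.bd
  obtain ⟨D, hD, hb'⟩ := hh.bd
  refine ⟨C + |c| * D, by positivity, fun ω => ?_⟩
  calc |g ω + c * h ω| ≤ |g ω| + |c * h ω| := abs_add_le _ _
    _ = |g ω| + |c| * |h ω| := by rw [abs_mul]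
    _ ≤ C * (1 + ∑ x ∈ S, (ω x : ℝ)) + |c| * (D * (1 + ∑ x ∈ S, (ω x : ℝ))) :=
        add_le_add (hb ω) (mul_le_mul_of_nonneg_left (hb' ω) (abs_nonneg c))
    _ = (C + |c| * D) * (1 + ∑ x ∈ S, (ω x : ℝ)) := by ring

theorem upd_dep {S : Finset Site} {h : Env → ℝ} (hh : Nice S h) (x : Site) (k : ℕ)
    (ω ω' : Env) (hω : ∀ y ∈ S.erase x, ω y = ω' y) :
    h (Function.update ω x k) = h (Function.update ω' x k) := by
  apply hh.dep
  intro y hy
  by_cases hyx : y = x
  · subst hyx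
    simp
  · rw [Function.update_of_ne hyx, Function.update_of_ne hyx]
    exact hω y (Finset.mem_erase.mpr ⟨hyx, hy⟩)

theorem upd_sum (S : Finset Site) (ω : Env) (x : Site) (k : ℕ) :
    ∑ y ∈ S, ((Function.update ω x k) y : ℝ) ≤ k + ∑ y ∈ S.erase x, (ω y : ℝ) := by
  by_cases hx : x ∈ S
  · rw [← Finset.add_sum_erase S _ hx, Function.update_self]
    refine add_le_add le_rfl (le_of_eq ?_)
    refine Finset.sum_congr rfl fun y hy => ?_
    rw [Function.update_of_ne (Finset.ne_of_mem_erase hy)]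
  · rw [Finset.erase_eq_of_notMem hx]
    have : ∑ y ∈ S, ((Function.update ω x k) y : ℝ) = ∑ y ∈ S, (ω y : ℝ) := by
      refine Finset.sum_congr rfl fun y hy => ?_
      rw [Function.update_of_ne (by rintro rfl; exact hx hy)]
    rw [this]
    have : (0:ℝ) ≤ k := Nat.cast_nonneg _
    linarith

theorem upd_bd {S : Finset Site} {h : Env → ℝ} {C : ℝ} (hC : 0 ≤ C)
    (hb : ∀ ω : Env, |h ω| ≤ C * (1 + ∑ x ∈ S, (ω x : ℝ))) (x : Site) (k : ℕ) (ω : Env) :
    |h (Function.update ω x k)| ≤ C * (1 + k + ∑ y ∈ S.erase x, (ω y : ℝ)) := by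
  refine (hb _).trans (mul_le_mul_of_nonneg_left ?_ hC)
  have := upd_sum S ω x k
  linarith

theorem nic4 : ∀ S h (x : Site) (k : ℕ), Nice S h →
    Nice (S.erase x) (fun ω => h (Function.update ω x k)) := by
  intro S h x k hh
  refine ⟨fun ω ω' hω => upd_dep hh x k ω ω' hω, ?_⟩
  obtain ⟨C, hC, hb⟩ := hh.bd
  refine ⟨C * (1 + k), by positivity, fun ω => ?_⟩
  refine (upd_bd hC hb x k ω).trans ?_
  rw [mul_assoc]
  refine mul_le_mul_of_nonneg_left ?_ hC
  have h1 : (0:ℝ) ≤ ∑ y ∈ S.erase x, (ω y : ℝ) := Finset.sum_nonneg fun _ _ => Nat.cast_nonneg _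
  have h2 : (0:ℝ) ≤ k := Nat.cast_nonneg _
  nlinarith

theorem nic5 (hG : T_GMO) : ∀ q : ℝ, 0 ≤ q → q < 1 → ∀ S h (x : Site), Nice S h →
    Nice (S.erase x) (Ex q x h) := by
  intro q h0 h1 S h x hh
  refine ⟨fun ω ω' hω => ?_, ?_⟩
  · unfold Ex
    congr 1
    funext k
    exact upd_dep hh x k ω ω' hω
  · obtain ⟨C, hC, hb⟩ := hh.bd
    have hi : Integrable (fun k : ℕ => (k : ℝ)) (geo q) := by
      have := hG q h0 h1 1
      simpa only [pow_one] using this
    have hE : 0 ≤ ∫ k : ℕ, (k : ℝ) ∂(geo q) := integral_nonneg fun _ => Nat.cast_nonneg _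
    refine ⟨C * (1 + ∫ k : ℕ, (k : ℝ) ∂(geo q)), by positivity, fun ω => ?_⟩
    have hs : (0:ℝ) ≤ ∑ y ∈ S.erase x, (ω y : ℝ) := Finset.sum_nonneg fun _ _ => Nat.cast_nonneg _
    have h2 : |Ex q x h ω| ≤ ∫ k : ℕ, |h (Function.update ω x k)| ∂(geo q) := by
      unfold Ex
      rw [← Real.norm_eq_abs]
      exact norm_integral_le_integral_norm _
    have h3 : ∫ k : ℕ, |h (Function.update ω x k)| ∂(geo q) ≤
        ∫ k : ℕ, (C * (1 + ∑ y ∈ S.erase x, (ω y : ℝ)) + C * (k : ℝ)) ∂(geo q) := by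
      refine integral_mono_of_nonneg (Filter.Eventually.of_forall fun _ => abs_nonneg _)
        ((integrable_const _).add (hi.const_mul _)) (Filter.Eventually.of_forall fun k => ?_)
      have := upd_bd hC hb x k ω
      simp only
      linarith
    rw [integral_add (integrable_const _) (hi.const_mul _), integral_const, integral_const_mul] at h3
    simp only [probReal_univ, one_smul] at h3
    refine (h2.trans h3).trans ?_
    rw [mul_assoc, ← mul_add]
    refine mul_le_mul_of_nonneg_left ?_ hC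
    nlinarith

theorem nic6 (hG : T_GMO) : ∀ q : ℝ, 0 ≤ q → q < 1 → ∀ S h (x : Site), Nice S h →
    Nice S (Dx q x h) := by
  intro q h0 h1 S h x hh
  have h2 := nic2 _ S _ (Finset.erase_subset x S) (nic5 hG q h0 h1 S h x hh)
  have h3 := nic3 S h (Ex q x h) (-1) hh h2
  have : Dx q x h = fun ω => h ω + (-1) * Ex q x h ω := by
    funext ω
    unfold Dx
    ring
  rw [this]
  exact h3

theorem mem_domN {n : ℕ} {x : Site} (h : x ∈ Pool.Agent.H22.LPP.dom (0, 0) (2 * n, 0)) :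
    x ∈ domN n := by
  obtain ⟨h1, h2, h3⟩ := h
  obtain ⟨a1, k, hk⟩ := h2
  obtain ⟨b1, l, hl⟩ := h3
  simp only at h1 a1 hk b1 hl
  unfold domN
  rw [Finset.mem_filter, Finset.mem_product, Finset.mem_Icc, Finset.mem_Icc]
  rw [abs_le] at a1 b1
  rw [abs_le, abs_le]
  refine ⟨⟨⟨by omega, by omega⟩, by omega, by omega⟩, ⟨by omega, by omega⟩,
    ⟨by omega, by omega⟩, by omega⟩

theorem nic7 : ∀ n, Nice (domN n) (ff n) := by
  classical
  intro n
  refine ⟨fun ω ω' hω => ?_, 1, zero_le_one, fun ω => ?_⟩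
  · unfold ff
    apply Pool.Agent.H22.LPP.T_congr
    intro x hx
    exact hω x (mem_domN hx)
  · unfold ff
    rw [abs_of_nonneg (Pool.Agent.H22.LPP.T_nonneg _ _ _), one_mul]
    have hr : Reach (0, 0) ((2 * n : ℤ), 0) := by
      refine ⟨?_, ?_⟩
      · simp
      · simp
    have h1 : T ω (0, 0) ((2 * n : ℤ), 0) ≤ ∑ x ∈ domN n, (ω x : ℝ) := by
      refine Pool.Agent.H22.LPP.T_le ω hr fun γ hγ => ?_
      unfold wt
      have h2 : ∑ r ∈ Finset.Ioc (0:ℤ) (2 * n), (ω (r, γ r) : ℝ) =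
          ∑ x ∈ (Finset.Ioc (0:ℤ) (2 * n)).image (fun r => ((r, γ r) : Site)), (ω x : ℝ) := by
        rw [Finset.sum_image]
        intro r _ r' _ hrr
        exact (Prod.mk.inj hrr).1
      simp only
      rw [h2]
      refine Finset.sum_le_sum_of_subset_of_nonneg ?_ fun _ _ _ => Nat.cast_nonneg _
      intro x hx
      rw [Finset.mem_image] at hx
      obtain ⟨r, hr, rfl⟩ := hx
      rw [Finset.mem_Ioc] at hr
      apply mem_domN
      exact ⟨hr.1, (hγ.left (by simpa using hr.2)).reach (by simpa using hr.1.le),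
        (hγ.right (by simpa using hr.1.le)).reach (by simpa using hr.2)⟩
    linarith

theorem pf_NIC (hG : T_GMO) : T_NIC :=
  ⟨nic1, nic2, nic3, nic4, nic5 hG, nic6 hG, nic7⟩

end Pool.Agent.H85.NF
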