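import Pool.Agent.H97.NF.Targets

/-!
# VVF: facts on the covariance `VV` and the influences
-/

set_option autoImplicit false

open MeasureTheory ProbabilityTheory

namespace Pool.Agent.H85.NF

open Pool.Agent.H99.NS Pool.Agent.H97.NF

theorem vv_measurable_eA : Measurable eA := by
  unfold eA
  exact measurable_pi_lambda _ fun x => (measurable_pi_apply x).fst

theorem vv_measurable_eB : Measurable eB := by
  unfold eB
  exact measurable_pi_lambda _ fun x => (measurable_pi_apply x).snd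

theorem nice_one (S : Finset Site) : Nice S (fun _ : Env => (1:ℝ)) := by
  refine ⟨fun _ _ _ => rfl, 1, zero_le_one, fun ω => ?_⟩
  have : (0:ℝ) ≤ ∑ x ∈ S, (ω x : ℝ) := Finset.sum_nonneg fun _ _ => Nat.cast_nonneg _
  rw [abs_one]
  linarith

theorem mean_eA (hM : T_MAR) (q : ℝ) (ρ : Site → ℝ) {g : Env → ℝ} (hg : Measurable g) :
    ∫ E, g (eA E) ∂(PN q ρ) = ∫ ω, g ω ∂(PE q) := by
  rw [← (hM q ρ).1.map_eq, integral_map (hM q ρ).1.measurable.aemeasurable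
    hg.aestronglyMeasurable]

theorem mean_eB (hM : T_MAR) (q : ℝ) (ρ : Site → ℝ) {g : Env → ℝ} (hg : Measurable g) :
    ∫ E, g (eB E) ∂(PN q ρ) = ∫ ω, g ω ∂(PE q) := by
  rw [← (hM q ρ).2.map_eq, integral_map (hM q ρ).2.measurable.aemeasurable
    hg.aestronglyMeasurable]

theorem vv1 (hN : T_NIC) (hM : T_MAR) (hI : T_INT) {q : ℝ} (h0 : 0 ≤ q) (h1 : q < 1) (n : ℕ)
    (ρ : Site → ℝ) : VV q n ρ = FF q (ff n) (ff n) ρ - (∫ ω, ff n ω ∂(PE q)) ^ 2 := by
  have hn := hN.2.2.2.2.2.2 n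
  have hm := hN.1 _ _ hn
  have hi := (hI q h0 h1 _ _ _ hn hn).1 ρ
  have hA : MemLp (fun E => ff n (eA E)) 2 (PN q ρ) := by
    rw [memLp_two_iff_integrable_sq
      (f := fun E => ff n (eA E)) (hm.comp vv_measurable_eA).aestronglyMeasurable]
    refine hi.2.1.congr (Filter.Eventually.of_forall fun E => ?_)
    simp only
    ring
  have hB : MemLp (fun E => ff n (eB E)) 2 (PN q ρ) := by
    rw [memLp_two_iff_integrable_sq
      (f := fun E => ff n (eB E)) (hm.comp vv_measurable_eB).aestronglyMeasurable]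
    refine hi.2.2.congr (Filter.Eventually.of_forall fun E => ?_)
    simp only
    ring
  unfold VV
  rw [covariance_eq_sub hA hB, mean_eA hM q ρ hm, mean_eB hM q ρ hm, ← sq]
  rfl

theorem vv2 (hN : T_NIC) (hM : T_MAR) (hPos : T_POS) {q : ℝ} (h0 : 0 ≤ q) (h1 : q < 1) (n : ℕ)
    (ρ : Site → ℝ) : 0 ≤ VV q n ρ := by
  have hn := hN.2.2.2.2.2.2 n
  have hm := hN.1 _ _ hn
  have h2 := hN.2.2.1 _ _ _ (-(∫ ω, ff n ω ∂(PE q))) hn (nice_one (domN n))
  have h3 := hPos q h0 h1 _ _ h2 ρ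
  unfold FF at h3
  unfold VV covariance
  rw [mean_eA hM q ρ hm, mean_eB hM q ρ hm]
  refine h3.trans (le_of_eq ?_)
  refine integral_congr_ae (Filter.Eventually.of_forall fun E => ?_)
  simp only
  ring

theorem vv3 (hN : T_NIC) (hM : T_MAR) (hI : T_INT) (hL : T_LOC) {q : ℝ} (h0 : 0 ≤ q)
    (h1 : q < 1) (n : ℕ) (ρ ρ' : Site → ℝ) (h : ∀ x ∈ domN n, ρ x = ρ' x) :
    VV q n ρ = VV q n ρ' := by
  have hn := hN.2.2.2.2.2.2 n
  rw [vv1 hN hM hI h0 h1, vv1 hN hM hI h0 h1, hL q _ _ _ hn hn ρ ρ' h]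

theorem vv_cl_zero : cl 0 = 0 := by unfold cl; simp

theorem vv_cl_one : cl 1 = 1 := by unfold cl; simp

theorem vv_pairLaw_zero (q : ℝ) : pairLaw q 0 = (geo q).map (fun k => (k, k)) := by
  unfold pairLaw
  rw [vv_cl_zero]
  simp

theorem vv_pairLaw_one (q : ℝ) : pairLaw q 1 = (geo q).prod (geo q) := by
  unfold pairLaw
  rw [vv_cl_one]
  simp

theorem vv_PN_zero (q : ℝ) : MeasurePreserving (fun (ω : Env) (x : Site) => (ω x, ω x))
    (PE q) (PN q (fun _ => 0)) := by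
  refine ⟨measurable_pi_lambda _ fun x => (measurable_pi_apply x).prodMk (measurable_pi_apply x),
    ?_⟩
  unfold PE PN
  have h2 := Measure.infinitePi_map_pi (μ := fun _ : Site => geo q)
    (f := fun _ : Site => fun k : ℕ => (k, k)) (fun _ => measurable_from_nat)
  rw [h2]
  simp only [vv_pairLaw_zero]

theorem vv4 (hN : T_NIC) (hM : T_MAR) (hI : T_INT) (hL : T_LOC) {q : ℝ} (h0 : 0 ≤ q)
    (h1 : q < 1) (n : ℕ) (ρ : Site → ℝ) (h : ∀ x ∈ domN n, ρ x = 0) :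
    VV q n ρ = Var[ff n; PE q] := by
  have hn := hN.2.2.2.2.2.2 n
  have hm := hN.1 _ _ hn
  rw [vv3 hN hM hI hL h0 h1 n ρ (fun _ => 0) h, vv1 hN hM hI h0 h1]
  have hmm : Measurable (fun E : PEnv => ff n (eA E) * ff n (eB E)) :=
    (hm.comp vv_measurable_eA).mul (hm.comp vv_measurable_eB)
  have hi := (hI q h0 h1 _ _ _ hn hn).2.1
  have hL2 : MemLp (ff n) 2 (PE q) := by
    rw [memLp_two_iff_integrable_sq hm.aestronglyMeasurable]
    refine hi.congr (Filter.Eventually.of_forall fun E => ?_)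
    simp only
    ring
  rw [variance_eq_sub hL2]
  congr 1
  unfold FF
  rw [← (vv_PN_zero q).map_eq, integral_map (vv_PN_zero q).measurable.aemeasurable
    hmm.aestronglyMeasurable]
  refine integral_congr_ae (Filter.Eventually.of_forall fun ω => ?_)
  have e1 : eA (fun x => (ω x, ω x)) = ω := rfl
  have e2 : eB (fun x => (ω x, ω x)) = ω := rfl
  simp only [e1, e2, Pi.pow_apply]
  ring

theorem vv5 (hN : T_NIC) (hM : T_MAR) (hI : T_INT) (hL : T_LOC) (hZ : T_ZIP) {q : ℝ}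
    (h0 : 0 ≤ q) (h1 : q < 1) (n : ℕ) (ρ : Site → ℝ) (h : ∀ x ∈ domN n, ρ x = 1) :
    VV q n ρ = 0 := by
  have hn := hN.2.2.2.2.2.2 n
  have hm := hN.1 _ _ hn
  rw [vv3 hN hM hI hL h0 h1 n ρ (fun _ => 1) h, vv1 hN hM hI h0 h1]
  have hmm : Measurable (fun E : PEnv => ff n (eA E) * ff n (eB E)) :=
    (hm.comp vv_measurable_eA).mul (hm.comp vv_measurable_eB)
  have h2 : MeasurePreserving (fun (p : (Site → ℕ) × (Site → ℕ)) (i : Site) => (p.1 i, p.2 i))
      ((PE q).prod (PE q)) (PN q (fun _ => 1)) := by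
    have h3 := hZ (ι := Site) (X := fun _ => ℕ) (Y := fun _ => ℕ) (fun _ => geo q)
      (fun _ => geo q)
    unfold PE PN
    simp only [vv_pairLaw_one]
    exact h3
  unfold FF
  rw [← h2.map_eq, integral_map h2.measurable.aemeasurable hmm.aestronglyMeasurable]
  have h4 := integral_prod_mul (μ := PE q) (ν := PE q) (ff n) (ff n)
  have h5 : ∫ p : (Site → ℕ) × (Site → ℕ), ff n (eA fun i => (p.1 i, p.2 i)) *
      ff n (eB fun i => (p.1 i, p.2 i)) ∂((PE q).prod (PE q)) =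
      (∫ ω, ff n ω ∂(PE q)) * ∫ ω, ff n ω ∂(PE q) := h4
  rw [h5]
  ring

theorem pf_VVF (hN : T_NIC) (hM : T_MAR) (hZ : T_ZIP) (hI : T_INT) (hL : T_LOC) (hPos : T_POS)
    (hMon : T_MON) : T_VVF := by
  intro q h0 h1 n
  refine ⟨vv1 hN hM hI h0 h1 n, vv2 hN hM hPos h0 h1 n, vv3 hN hM hI hL h0 h1 n,
    vv4 hN hM hI hL h0 h1 n, vv5 hN hM hI hL hZ h0 h1 n, ?_, ?_⟩
  · intro ρ ρ' h
    rw [vv1 hN hM hI h0 h1, vv1 hN hM hI h0 h1]
    have := hMon q h0 h1 _ _ (hN.2.2.2.2.2.2 n) ρ ρ' h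
    linarith
  · intro ρ x
    unfold Infx
    exact hPos q h0 h1 _ _ (hN.2.2.2.2.2.1 q h0 h1 _ _ x (hN.2.2.2.2.2.2 n)) ρ

end Pool.Agent.H85.NF
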